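import Pool.Agent.KS6_23.FP.Path

/-!
Estimates of the integrals `JJ`.
-/

set_option autoImplicit false

open Polynomial Set MeasureTheory intervalIntegral

namespace Pool.Agent.KS6_23.FP

/-- `α = 1 - 1/k` -/
noncomputable def al (k : ℕ) : ℝ := 1 - (k : ℝ)⁻¹

lemma ex_eq (k : ℕ) : ex k = ((-al k : ℝ) : ℂ) := by
  rw [ex, al]; push_cast; ring

lemma al_lt (k : ℕ) (hk : 2 ≤ k) : al k < 1 := by
  have : (0:ℝ) < k := by exact_mod_cast (by omega : 0 < k)
  have : 0 < (k : ℝ)⁻¹ := by positivity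
  rw [al]; linarith

lemma half_le_al (k : ℕ) (hk : 2 ≤ k) : 1 / 2 ≤ al k := by
  have h2 : (2:ℝ) ≤ k := by exact_mod_cast hk
  have : (k : ℝ)⁻¹ ≤ 2⁻¹ := inv_anti₀ (by norm_num) h2
  rw [al]; linarith

/-- `σ = cos (α π / 2) = sin (π / 2k)` -/
noncomputable def sg (k : ℕ) : ℝ := Real.cos (al k * (Real.pi / 2))

lemma sg_pos (k : ℕ) (hk : 2 ≤ k) : 0 < sg k := by
  have h1 := al_lt k hk
  have h2 := half_le_al k hk
  have hp := Real.pi_pos
  apply Real.cos_pos_of_mem_Ioo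
  constructor
  · nlinarith
  · nlinarith

lemma norm_g (k : ℕ) (z : ℂ) : ‖z ^ ex k‖ = ‖z‖ ^ (-al k) := by
  rw [ex_eq, Complex.norm_cpow_real]

/-- all values of the integrand lie in a sector around a fixed direction -/
lemma sector (k : ℕ) (hk : 2 ≤ k) {w : ℂ} (hw : w ∈ Complex.slitPlane) :
    ∃ u : ℂ, ‖u‖ = 1 ∧ ∀ s ∈ Icc (0:ℝ) 1,
      sg k * ‖1 + (s : ℂ) * (w - 1)‖ ^ (-al k) ≤ (u * (1 + (s : ℂ) * (w - 1)) ^ ex k).re := by
  set θ : ℝ := Complex.arg w with hθ
  have hw0 : w ≠ 0 := Complex.slitPlane_ne_zero hw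
  have hθ1 : θ < Real.pi := lt_of_le_of_ne (Complex.arg_le_pi w)
    (Complex.mem_slitPlane_iff_arg.1 hw).1
  have hθ2 : -Real.pi < θ := Complex.neg_pi_lt_arg w
  have hcos : 0 < Real.cos (θ / 2) := Real.cos_pos_of_mem_Ioo ⟨by linarith, by linarith⟩
  have hal := al_lt k hk
  have hal2 := half_le_al k hk
  refine ⟨Complex.exp (((al k * θ / 2 : ℝ) : ℂ) * Complex.I), ?_, ?_⟩
  · rw [Complex.norm_exp_ofReal_mul_I]
  intro s hs
  set z : ℂ := 1 + (s : ℂ) * (w - 1) with hz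
  have hz0 : z ≠ 0 := Complex.slitPlane_ne_zero (slit_seg hw hs)
  set y : ℂ := z * Complex.exp (((-(θ / 2) : ℝ) : ℂ) * Complex.I) with hy
  have hwn : 0 < ‖w‖ := norm_pos_iff.2 hw0
  have hyre : y.re = ((1 - s) + s * ‖w‖) * Real.cos (θ / 2) := by
    have h1 : w * Complex.exp (((-(θ / 2) : ℝ) : ℂ) * Complex.I)
        = (‖w‖ : ℂ) * Complex.exp (((θ / 2 : ℝ) : ℂ) * Complex.I) := by
      conv_lhs => rw [← Complex.norm_mul_exp_arg_mul_I w]
      rw [mul_assoc, ← Complex.exp_add]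
      congr 2
      rw [← hθ]; push_cast; ring
    have h2 : y = ((1 - s : ℝ) : ℂ) * Complex.exp (((-(θ / 2) : ℝ) : ℂ) * Complex.I)
        + ((s * ‖w‖ : ℝ) : ℂ) * Complex.exp (((θ / 2 : ℝ) : ℂ) * Complex.I) := by
      rw [hy, hz]
      have : (1 + (s : ℂ) * (w - 1)) * Complex.exp (((-(θ / 2) : ℝ) : ℂ) * Complex.I)
          = ((1 - s : ℝ) : ℂ) * Complex.exp (((-(θ / 2) : ℝ) : ℂ) * Complex.I)
            + (s : ℂ) * (w * Complex.exp (((-(θ / 2) : ℝ) : ℂ) * Complex.I)) := by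
        push_cast; ring
      rw [this, h1]
      push_cast; ring
    rw [h2, Complex.add_re, Complex.re_ofReal_mul, Complex.re_ofReal_mul,
      Complex.exp_ofReal_mul_I_re, Complex.exp_ofReal_mul_I_re, Real.cos_neg]
    ring
  have hypos : 0 < y.re := by
    rw [hyre]
    apply mul_pos _ hcos
    rcases eq_or_lt_of_le hs.1 with h | h
    · rw [← h]; norm_num
    · have := hs.2
      have : 0 < s * ‖w‖ := mul_pos h hwn
      linarith
  have hy0 : y ≠ 0 := by
    intro h; rw [h] at hypos; simp at hypos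
  have harg : |y.arg| < Real.pi / 2 := Complex.abs_arg_lt_pi_div_two_iff.2 (Or.inl hypos)
  have harg2 := abs_lt.1 harg
  have hlog : Complex.log z = Complex.log y + ((θ / 2 : ℝ) : ℂ) * Complex.I := by
    have h1 : z = Complex.exp (Complex.log y + ((θ / 2 : ℝ) : ℂ) * Complex.I) := by
      rw [Complex.exp_add, Complex.exp_log hy0, hy, mul_assoc, ← Complex.exp_add]
      have : ((-(θ / 2) : ℝ) : ℂ) * Complex.I + ((θ / 2 : ℝ) : ℂ) * Complex.I = 0 := by
        push_cast; ring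
      rw [this, Complex.exp_zero, mul_one]
    conv_lhs => rw [h1]
    apply Complex.log_exp
    · rw [Complex.add_im, Complex.log_im, Complex.im_ofReal_mul, Complex.I_im]
      linarith [harg2.1]
    · rw [Complex.add_im, Complex.log_im, Complex.im_ofReal_mul, Complex.I_im]
      linarith [harg2.2]
  have hval : Complex.exp (((al k * θ / 2 : ℝ) : ℂ) * Complex.I) * z ^ ex k
      = Complex.exp (((-al k : ℝ) : ℂ) * Complex.log y) := by
    rw [Complex.cpow_def_of_ne_zero hz0, ← Complex.exp_add, hlog, ex_eq]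
    congr 1
    push_cast; ring
  have hnorm : ‖z‖ ^ (-al k) = Real.exp (-al k * Real.log ‖y‖) := by
    have : ‖y‖ = ‖z‖ := by
      rw [hy, norm_mul, Complex.norm_exp_ofReal_mul_I, mul_one]
    rw [this, Real.rpow_def_of_pos (norm_pos_iff.2 hz0)]
    ring_nf
  rw [hval, hnorm, Complex.exp_re, Complex.re_ofReal_mul, Complex.im_ofReal_mul, Complex.log_re,
    Complex.log_im, mul_comm (sg k)]
  apply mul_le_mul_of_nonneg_left _ (Real.exp_pos _).le
  rw [sg, show -al k * y.arg = -(al k * y.arg) by ring, Real.cos_neg, ← Real.cos_abs (al k * y.arg)]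
  apply Real.cos_le_cos_of_nonneg_of_le_pi (abs_nonneg _)
  · nlinarith [Real.pi_pos]
  · rw [abs_mul, abs_of_pos (by linarith : 0 < al k)]
    apply mul_le_mul_of_nonneg_left harg.le (by linarith)

lemma cont_ng (k : ℕ) {w : ℂ} (hw : w ∈ Complex.slitPlane) :
    ContinuousOn (fun s : ℝ => ‖1 + (s : ℂ) * (w - 1)‖ ^ (-al k)) (Icc (0:ℝ) 1) := by
  have h := (cont_g k hw).norm
  simpa only [norm_g] using h

/-- lower bound of `|J|` -/
lemma JJ_lower (k m : ℕ) (hk : 2 ≤ k) {w : ℂ} (hw : w ∈ Complex.slitPlane) :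
    sg k * ∫ s in (0:ℝ)..1, s ^ m * ‖1 + (s : ℂ) * (w - 1)‖ ^ (-al k) ≤ ‖JJ k m w‖ := by
  obtain ⟨u, hu, hs⟩ := sector k hk hw
  have h1 : (u * JJ k m w).re ≤ ‖JJ k m w‖ := by
    calc (u * JJ k m w).re ≤ ‖u * JJ k m w‖ := Complex.re_le_norm _
      _ = ‖JJ k m w‖ := by rw [norm_mul, hu, one_mul]
  have hi := intble_g k m hw
  have h2 : (u * JJ k m w).re = ∫ s in (0:ℝ)..1,
      (u * ((s : ℂ) ^ m * (1 + (s : ℂ) * (w - 1)) ^ ex k)).re := by
    rw [JJ, ← intervalIntegral.integral_const_mul]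
    have := Complex.reCLM.intervalIntegral_comp_comm (hi.const_mul u)
    simpa using this.symm
  refine le_trans ?_ h1
  rw [h2, ← intervalIntegral.integral_const_mul]
  apply intervalIntegral.integral_mono_on (by norm_num)
  · apply ContinuousOn.intervalIntegrable
    rw [uIcc_of_le (by norm_num : (0:ℝ) ≤ 1)]
    exact ContinuousOn.mul continuousOn_const (ContinuousOn.mul (by fun_prop) (cont_ng k hw))
  · apply ContinuousOn.intervalIntegrable
    rw [uIcc_of_le (by norm_num : (0:ℝ) ≤ 1)]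
    exact Complex.continuous_re.comp_continuousOn
      (ContinuousOn.mul continuousOn_const (ContinuousOn.mul (by fun_prop) (cont_g k hw)))
  · intro s hs'
    have h3 := hs s hs'
    have h4 : (u * ((s : ℂ) ^ m * (1 + (s : ℂ) * (w - 1)) ^ ex k)).re
        = s ^ m * (u * (1 + (s : ℂ) * (w - 1)) ^ ex k).re := by
      rw [show u * ((s : ℂ) ^ m * (1 + (s : ℂ) * (w - 1)) ^ ex k)
        = ((s ^ m : ℝ) : ℂ) * (u * (1 + (s : ℂ) * (w - 1)) ^ ex k) by push_cast; ring]
      rw [Complex.re_ofReal_mul]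
    rw [h4]
    have : 0 ≤ s ^ m := pow_nonneg hs'.1 m
    nlinarith

end Pool.Agent.KS6_23.FP
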