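import Pool.Agent.KS6_23.FP.Est

/-!
Estimates of the integrals `JJ`, second part.
-/

set_option autoImplicit false

open Polynomial Set MeasureTheory intervalIntegral

namespace Pool.Agent.KS6_23.FP

/-- upper bound of `|J_0|` far from `1` -/
lemma JJ0_upper (k : ℕ) (hk : 2 ≤ k) {w : ℂ} (hw : w ∈ Complex.slitPlane)
    (h1 : 1 ≤ ‖w - 1‖) : ‖JJ k 0 w‖ ≤ 3 * k := by
  have h := root_sub k hw
  have hk0 : (0:ℝ) < k := by exact_mod_cast (by omega : 0 < k)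
  have hn : ‖w ^ ((k : ℂ)⁻¹) - 1‖ = ‖w - 1‖ / k * ‖JJ k 0 w‖ := by
    rw [h, norm_mul, norm_div, Complex.norm_natCast]
  have h2 : ‖w ^ ((k : ℂ)⁻¹) - 1‖ ≤ ‖w‖ ^ ((k : ℝ)⁻¹) + 1 := by
    calc ‖w ^ ((k : ℂ)⁻¹) - 1‖ ≤ ‖w ^ ((k : ℂ)⁻¹)‖ + ‖(1:ℂ)‖ := norm_sub_le _ _
      _ = ‖w‖ ^ ((k : ℝ)⁻¹) + 1 := by rw [Complex.norm_cpow_inv_nat, norm_one]
  have hw2 : ‖w‖ ≤ 2 * ‖w - 1‖ := by
    have : ‖w‖ ≤ ‖w - 1‖ + ‖(1:ℂ)‖ := by
      have := norm_add_le (w - 1) 1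
      simpa using this
    rw [norm_one] at this
    linarith
  have h3 : ‖w‖ ^ ((k : ℝ)⁻¹) ≤ 2 * ‖w - 1‖ := by
    have hkinv : (k : ℝ)⁻¹ ≤ 1 := by
      apply inv_le_one_of_one_le₀
      exact_mod_cast (by omega : 1 ≤ k)
    rcases le_total ‖w‖ 1 with h | h
    · have : ‖w‖ ^ ((k : ℝ)⁻¹) ≤ 1 := Real.rpow_le_one (norm_nonneg _) h (by positivity)
      linarith
    · calc ‖w‖ ^ ((k : ℝ)⁻¹) ≤ ‖w‖ ^ (1:ℝ) := Real.rpow_le_rpow_of_exponent_le h hkinv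
        _ = ‖w‖ := Real.rpow_one _
        _ ≤ _ := hw2
  have h4 : ‖w - 1‖ / k * ‖JJ k 0 w‖ ≤ 3 * ‖w - 1‖ := by
    rw [← hn]; linarith
  have h5 : ‖w - 1‖ * ‖JJ k 0 w‖ ≤ ‖w - 1‖ * (3 * k) := by
    have : ‖w - 1‖ / k * ‖JJ k 0 w‖ = (‖w - 1‖ * ‖JJ k 0 w‖) / k := by ring
    rw [this, div_le_iff₀ hk0] at h4
    linarith
  exact le_of_mul_le_mul_left h5 (by linarith)

lemma norm_z_le {w : ℂ} {s : ℝ} (hs : s ∈ Icc (0:ℝ) 1) :
    ‖1 + (s : ℂ) * (w - 1)‖ ≤ (1 - s) + s * ‖w‖ := by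
  have : 1 + (s : ℂ) * (w - 1) = ((1 - s : ℝ) : ℂ) + (s : ℂ) * w := by push_cast; ring
  rw [this]
  refine le_trans (norm_add_le _ _) ?_
  rw [norm_mul, Complex.norm_of_nonneg (by linarith [hs.2]), Complex.norm_of_nonneg hs.1]

lemma norm_z_pos {w : ℂ} (hw : w ∈ Complex.slitPlane) {s : ℝ} (hs : s ∈ Icc (0:ℝ) 1) :
    0 < ‖1 + (s : ℂ) * (w - 1)‖ := norm_pos_iff.2 (Complex.slitPlane_ne_zero (slit_seg hw hs))

lemma int_pow_m (m : ℕ) (a b : ℝ) : ∫ s in a..b, s ^ m = (b ^ (m + 1) - a ^ (m + 1)) / (m + 1) := by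
  rw [integral_pow]

lemma intble_ng (k m : ℕ) {w : ℂ} (hw : w ∈ Complex.slitPlane) :
    IntervalIntegrable (fun s : ℝ => s ^ m * ‖1 + (s : ℂ) * (w - 1)‖ ^ (-al k)) volume 0 1 := by
  apply ContinuousOn.intervalIntegrable
  rw [uIcc_of_le (by norm_num : (0:ℝ) ≤ 1)]
  exact ContinuousOn.mul (by fun_prop) (cont_ng k hw)

/-- crude lower bound of `|J_m|` -/
lemma JJ_lower1 (k m : ℕ) (hk : 2 ≤ k) {w : ℂ} (hw : w ∈ Complex.slitPlane)
    (h1 : 1 ≤ ‖w - 1‖) : sg k / (2 * ‖w - 1‖ * (m + 1)) ≤ ‖JJ k m w‖ := by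
  have hal := al_lt k hk
  have hal2 := half_le_al k hk
  refine le_trans ?_ (JJ_lower k m hk hw)
  have h2 : (1 / (2 * ‖w - 1‖)) * (1 / (m + 1)) ≤
      ∫ s in (0:ℝ)..1, s ^ m * ‖1 + (s : ℂ) * (w - 1)‖ ^ (-al k) := by
    have h3 : ∫ s in (0:ℝ)..1, s ^ m * (1 / (2 * ‖w - 1‖))
        = (1 / (2 * ‖w - 1‖)) * (1 / (m + 1)) := by
      rw [intervalIntegral.integral_mul_const, int_pow_m]
      simp
      ring
    rw [← h3]
    apply intervalIntegral.integral_mono_on (by norm_num)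
    · apply Continuous.intervalIntegrable; fun_prop
    · exact intble_ng k m hw
    · intro s hs
      apply mul_le_mul_of_nonneg_left _ (pow_nonneg hs.1 m)
      have hz := norm_z_le (w := w) hs
      have hzp := norm_z_pos hw hs
      have hw2 : ‖w‖ ≤ 2 * ‖w - 1‖ := by
        have : ‖w‖ ≤ ‖w - 1‖ + ‖(1:ℂ)‖ := by
          have := norm_add_le (w - 1) 1
          simpa using this
        rw [norm_one] at this
        linarith
      have hz2 : ‖1 + (s : ℂ) * (w - 1)‖ ≤ 2 * ‖w - 1‖ := by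
        have := hs.1
        have := hs.2
        nlinarith
      calc 1 / (2 * ‖w - 1‖) = (2 * ‖w - 1‖) ^ (-1 : ℝ) := by
            rw [Real.rpow_neg_one, one_div]
        _ ≤ (2 * ‖w - 1‖) ^ (-al k) :=
            Real.rpow_le_rpow_of_exponent_le (by linarith) (by linarith)
        _ ≤ ‖1 + (s : ℂ) * (w - 1)‖ ^ (-al k) :=
            Real.rpow_le_rpow_of_nonpos hzp hz2 (by linarith)
  have hsg := sg_pos k hk
  calc sg k / (2 * ‖w - 1‖ * (m + 1)) = sg k * ((1 / (2 * ‖w - 1‖)) * (1 / (m + 1))) := by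
        field_simp
    _ ≤ _ := mul_le_mul_of_nonneg_left h2 hsg.le

/-- lower bound of `|J_m|` near `0` -/
lemma JJ_lower2 (k m : ℕ) (hk : 2 ≤ k) {w : ℂ} (hw : w ∈ Complex.slitPlane) {δ : ℝ}
    (hδ : 0 < δ) (hδ2 : δ ≤ 1 / 2) (hwδ : ‖w‖ ≤ δ) (hm : (1 - δ) ^ (m + 1) ≤ 1 / 2) :
    sg k / (2 * Real.sqrt (2 * δ) * (m + 1)) ≤ ‖JJ k m w‖ := by
  have hal := al_lt k hk
  have hal2 := half_le_al k hk
  refine le_trans ?_ (JJ_lower k m hk hw)
  have hint := intble_ng k m hw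
  have h01 : uIcc (0:ℝ) (1 - δ) ⊆ uIcc (0:ℝ) 1 := by
    rw [uIcc_of_le (by linarith), uIcc_of_le (by norm_num)]
    apply Icc_subset_Icc le_rfl; linarith
  have h02 : uIcc (1 - δ) (1:ℝ) ⊆ uIcc (0:ℝ) 1 := by
    rw [uIcc_of_le (by linarith), uIcc_of_le (by norm_num)]
    apply Icc_subset_Icc _ le_rfl; linarith
  have hA := hint.mono_set h01
  have hB := hint.mono_set h02
  have hsplit := intervalIntegral.integral_add_adjacent_intervals hA hB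
  have hpos : 0 ≤ ∫ s in (0:ℝ)..(1 - δ), s ^ m * ‖1 + (s : ℂ) * (w - 1)‖ ^ (-al k) := by
    apply intervalIntegral.integral_nonneg (by linarith)
    intro s hs
    exact mul_nonneg (pow_nonneg hs.1 m) (Real.rpow_nonneg (norm_nonneg _) _)
  have hsq : 0 < Real.sqrt (2 * δ) := Real.sqrt_pos.2 (by linarith)
  have h2 : (1 / Real.sqrt (2 * δ)) * ((1 / 2) / (m + 1)) ≤
      ∫ s in (1 - δ)..1, s ^ m * ‖1 + (s : ℂ) * (w - 1)‖ ^ (-al k) := by
    have h3 : ∫ s in (1 - δ)..1, s ^ m * (1 / Real.sqrt (2 * δ))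
        = (1 / Real.sqrt (2 * δ)) * ((1 - (1 - δ) ^ (m + 1)) / (m + 1)) := by
      rw [intervalIntegral.integral_mul_const, int_pow_m]
      simp
      ring
    have h4 : (1 / Real.sqrt (2 * δ)) * ((1 / 2) / (m + 1)) ≤
        (1 / Real.sqrt (2 * δ)) * ((1 - (1 - δ) ^ (m + 1)) / ((m:ℝ) + 1)) := by
      apply mul_le_mul_of_nonneg_left _ (by positivity)
      apply div_le_div_of_nonneg_right _ (by positivity)
      linarith
    refine le_trans h4 ?_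
    rw [← h3]
    apply intervalIntegral.integral_mono_on (by linarith)
    · apply Continuous.intervalIntegrable; fun_prop
    · exact hB
    · intro s hs
      have hs' : s ∈ Icc (0:ℝ) 1 := ⟨by linarith [hs.1], hs.2⟩
      apply mul_le_mul_of_nonneg_left _ (pow_nonneg hs'.1 m)
      have hz := norm_z_le (w := w) hs'
      have hzp := norm_z_pos hw hs'
      have hz2 : ‖1 + (s : ℂ) * (w - 1)‖ ≤ 2 * δ := by
        have h5 := hs'.2
        have h6 := hs.1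
        have h7 : s * ‖w‖ ≤ 1 * δ := mul_le_mul h5 hwδ (norm_nonneg _) (by norm_num)
        linarith
      calc 1 / Real.sqrt (2 * δ) = (2 * δ) ^ (-(1 / 2) : ℝ) := by
            rw [Real.rpow_neg (by linarith), ← Real.sqrt_eq_rpow, one_div]
        _ ≤ (2 * δ) ^ (-al k) :=
            Real.rpow_le_rpow_of_exponent_ge (by linarith) (by linarith) (by linarith)
        _ ≤ ‖1 + (s : ℂ) * (w - 1)‖ ^ (-al k) :=
            Real.rpow_le_rpow_of_nonpos hzp hz2 (by linarith)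
  have hsg := sg_pos k hk
  calc sg k / (2 * Real.sqrt (2 * δ) * (m + 1))
      = sg k * ((1 / Real.sqrt (2 * δ)) * ((1 / 2) / (m + 1))) := by
        field_simp
    _ ≤ _ := mul_le_mul_of_nonneg_left (by linarith) hsg.le

end Pool.Agent.KS6_23.FP
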