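import Pool.Agent.KS6_23.FP.Est2

/-!
Estimates of the integrals `JJ`, third part: the main regime.
-/

set_option autoImplicit false

open Polynomial Set MeasureTheory intervalIntegral

namespace Pool.Agent.KS6_23.FP

lemma JJ_main (k m : ℕ) (hk : 2 ≤ k) {w : ℂ} (hw : w ∈ Complex.slitPlane) {κ : ℝ}
    (hκ : 0 < κ) (hκ1 : κ ≤ 1) (hz : ∀ s ∈ Icc (0:ℝ) 1, κ ≤ ‖1 + (s : ℂ) * (w - 1)‖)
    (h2 : ‖w - 1‖ ≤ 2) :
    ‖((m : ℂ) + 1) * JJ k m w - w ^ ex k‖ ≤ 2 / κ ^ 2 / (m + 2) := by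
  have hal := al_lt k hk
  have hal2 := half_le_al k hk
  set D : ℝ → ℂ := fun s => (s : ℂ) ^ (m + 1) *
    (ex k * (1 + (s : ℂ) * (w - 1)) ^ (ex k - 1) * (w - 1)) with hD
  have hDc : ContinuousOn D (Icc (0:ℝ) 1) := by
    apply ContinuousOn.mul (by fun_prop)
    apply ContinuousOn.mul _ continuousOn_const
    apply ContinuousOn.mul continuousOn_const
    apply ContinuousOn.cpow_const
    · fun_prop
    · intro s hs
      exact slit_seg hw hs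
  have hDi : IntervalIntegrable D volume 0 1 := by
    apply ContinuousOn.intervalIntegrable
    rw [uIcc_of_le (by norm_num : (0:ℝ) ≤ 1)]
    exact hDc
  have hd : ∀ s ∈ uIcc (0:ℝ) 1, HasDerivAt
      (fun s : ℝ => (s : ℂ) ^ (m + 1) * (1 + (s : ℂ) * (w - 1)) ^ ex k)
      (((m : ℂ) + 1) * ((s : ℂ) ^ m * (1 + (s : ℂ) * (w - 1)) ^ ex k) + D s) s := by
    intro s hs
    rw [uIcc_of_le (by norm_num : (0:ℝ) ≤ 1)] at hs
    have ha : HasDerivAt (fun u : ℂ => 1 + u * (w - 1)) (1 * (w - 1)) (s : ℂ) :=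
      ((hasDerivAt_id (s : ℂ)).mul_const (w - 1)).const_add 1
    have hb := ha.cpow_const (c := ex k) (slit_seg hw hs)
    have hc := (hasDerivAt_pow (m + 1) (s : ℂ)).mul hb
    refine HasDerivAt.congr_deriv hc.comp_ofReal ?_
    rw [hD]
    push_cast
    simp
    ring
  have hi := (intble_g k m hw).const_mul ((m : ℂ) + 1)
  have h := intervalIntegral.integral_eq_sub_of_hasDerivAt hd (hi.add hDi)
  rw [intervalIntegral.integral_add hi hDi, intervalIntegral.integral_const_mul] at h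
  simp only [Complex.ofReal_one, one_pow, one_mul, Complex.ofReal_zero, add_sub_cancel,
    zero_pow (Nat.succ_ne_zero m), zero_mul, sub_zero] at h
  have h3 : ((m : ℂ) + 1) * JJ k m w - w ^ ex k = -∫ s in (0:ℝ)..1, D s := by
    rw [JJ]
    linear_combination h
  rw [h3, norm_neg]
  have hexn : ‖ex k‖ ≤ 1 := by
    rw [ex_eq, Complex.norm_real, Real.norm_eq_abs, abs_neg, abs_of_pos (by linarith)]
    exact hal.le
  have hb : ∀ s ∈ Icc (0:ℝ) 1, ‖D s‖ ≤ s ^ (m + 1) * (2 / κ ^ 2) := by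
    intro s hs
    have hzs := hz s hs
    have hzp : 0 < ‖1 + (s : ℂ) * (w - 1)‖ := lt_of_lt_of_le hκ hzs
    have h4 : ‖(1 + (s : ℂ) * (w - 1)) ^ (ex k - 1)‖ ≤ 1 / κ ^ 2 := by
      have : ex k - 1 = ((-al k - 1 : ℝ) : ℂ) := by rw [ex_eq]; push_cast; ring
      rw [this, Complex.norm_cpow_real]
      calc ‖1 + (s : ℂ) * (w - 1)‖ ^ (-al k - 1) ≤ κ ^ (-al k - 1) :=
            Real.rpow_le_rpow_of_nonpos hκ hzs (by linarith)
        _ ≤ κ ^ (-2 : ℝ) := Real.rpow_le_rpow_of_exponent_ge hκ hκ1 (by linarith)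
        _ = 1 / κ ^ 2 := by
            rw [Real.rpow_neg hκ.le, one_div]
            norm_num
    have hs0 : 0 ≤ s ^ (m + 1) := pow_nonneg hs.1 _
    have hDn : ‖D s‖ = s ^ (m + 1) * (‖ex k‖ * ‖(1 + (s : ℂ) * (w - 1)) ^ (ex k - 1)‖ * ‖w - 1‖) := by
      rw [hD]
      simp only [norm_mul, norm_pow]
      rw [Complex.norm_of_nonneg hs.1]
    rw [hDn]
    apply mul_le_mul_of_nonneg_left _ hs0
    have h5 : ‖ex k‖ * ‖(1 + (s : ℂ) * (w - 1)) ^ (ex k - 1)‖ ≤ 1 * (1 / κ ^ 2) :=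
      mul_le_mul hexn h4 (norm_nonneg _) (by norm_num)
    calc _ ≤ (1 * (1 / κ ^ 2)) * 2 := mul_le_mul h5 h2 (norm_nonneg _) (by positivity)
      _ = 2 / κ ^ 2 := by ring
  have h6 := intervalIntegral.norm_integral_le_of_norm_le (μ := volume) (a := (0:ℝ)) (b := 1) (f := D)
    (g := fun s => s ^ (m + 1) * (2 / κ ^ 2)) (by norm_num)
    (Filter.Eventually.of_forall (fun s hs => hb s (Ioc_subset_Icc_self hs)))
    (by apply Continuous.intervalIntegrable; fun_prop)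
  refine le_trans h6 (le_of_eq ?_)
  rw [intervalIntegral.integral_mul_const, integral_pow]
  simp
  ring

/-- `L_k = 2 k (1 - 2^(-1/k))` -/
noncomputable def Lk (k : ℕ) : ℝ := 2 * k * (1 - (2:ℝ) ^ (-(k : ℝ)⁻¹))

lemma Lk_nonneg (k : ℕ) : 0 ≤ Lk k := by
  rw [Lk]
  have : (2:ℝ) ^ (-(k : ℝ)⁻¹) ≤ 1 := by
    apply Real.rpow_le_one_of_one_le_of_nonpos (by norm_num)
    have : (0:ℝ) ≤ (k : ℝ)⁻¹ := by positivity
    linarith
  have hk : (0:ℝ) ≤ k := by positivity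
  apply mul_nonneg (by linarith)
  linarith

lemma Lk_le (k : ℕ) : Lk k ≤ 2 * k := by
  rw [Lk]
  have h : 0 < (2:ℝ) ^ (-(k : ℝ)⁻¹) := Real.rpow_pos_of_pos (by norm_num) _
  have hk : (0:ℝ) ≤ k := by positivity
  nlinarith

lemma int_L (k : ℕ) (hk : 2 ≤ k) : ∫ s in (0:ℝ)..1, ((1 + s) / 2) ^ (-al k) = Lk k := by
  have hk0 : (0:ℝ) < k := by exact_mod_cast (by omega : 0 < k)
  have hd : ∀ s ∈ uIcc (0:ℝ) 1, HasDerivAt (fun s : ℝ => 2 * k * ((1 + s) / 2) ^ ((k : ℝ)⁻¹))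
      (((1 + s) / 2) ^ (-al k)) s := by
    intro s hs
    rw [uIcc_of_le (by norm_num : (0:ℝ) ≤ 1)] at hs
    have h1 : HasDerivAt (fun s : ℝ => (1 + s) / 2) (1 / 2) s :=
      ((hasDerivAt_id s).const_add 1).div_const 2
    have h2 := h1.rpow_const (p := (k : ℝ)⁻¹) (Or.inl (by
      have := hs.1
      positivity))
    have h3 := h2.const_mul (2 * (k : ℝ))
    refine HasDerivAt.congr_deriv h3 ?_
    have : (k : ℝ)⁻¹ - 1 = -al k := by rw [al]; ring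
    rw [this]
    field_simp
  have hi : IntervalIntegrable (fun s : ℝ => ((1 + s) / 2) ^ (-al k)) volume 0 1 := by
    apply ContinuousOn.intervalIntegrable
    rw [uIcc_of_le (by norm_num : (0:ℝ) ≤ 1)]
    apply ContinuousOn.rpow_const
    · fun_prop
    · intro s hs
      left
      have := hs.1
      positivity
  rw [intervalIntegral.integral_eq_sub_of_hasDerivAt hd hi, Lk]
  norm_num
  rw [Real.rpow_neg (by norm_num)]
  have : (1 / 2 : ℝ) ^ ((k : ℝ)⁻¹) = ((2:ℝ) ^ ((k : ℝ)⁻¹))⁻¹ := by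
    rw [one_div, Real.inv_rpow (by norm_num)]
  rw [this]
  ring

/-- the geometric inequality -/
lemma geom {w : ℂ} {τ κ : ℝ} (hκ : 0 < κ) (h1 : 1 ≤ ‖w - 1‖) (hτ : ‖w - 1‖ ^ 2 ≤ 1 + τ) {s : ℝ}
    (hs : s ∈ Icc (0:ℝ) 1) (hz : κ ≤ ‖1 + (s : ℂ) * (w - 1)‖) :
    (1 + s) * ‖w‖ ≤ 2 * ‖1 + (s : ℂ) * (w - 1)‖ * (1 + 2 * τ / κ ^ 2) := by
  set x : ℝ := (w - 1).re with hx
  set N : ℝ := ‖w - 1‖ ^ 2 with hN
  have hN1 : 1 ≤ N := by rw [hN]; nlinarith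
  have hτ0 : 0 ≤ τ := by linarith
  have hN2 : N = x ^ 2 + (w - 1).im ^ 2 := by
    rw [hN, Complex.sq_norm, Complex.normSq_apply, hx]; ring
  have hxN : x ≤ N := by
    have ha : x ≤ ‖w - 1‖ := Complex.re_le_norm _
    have hb : ‖w - 1‖ ≤ N := by rw [hN]; nlinarith
    linarith
  have hzn : ‖1 + (s : ℂ) * (w - 1)‖ ^ 2 = 1 + 2 * s * x + s ^ 2 * N := by
    rw [Complex.sq_norm, Complex.normSq_apply, hN2, hx]
    simp
    ring
  have hwn : ‖w‖ ^ 2 = 1 + 2 * x + N := by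
    rw [Complex.sq_norm, Complex.normSq_apply, hN2, hx]
    simp
    ring
  have hs0 := hs.1
  have hs1 := hs.2
  have key : (1 + s) ^ 2 * ‖w‖ ^ 2 ≤ 4 * ‖1 + (s : ℂ) * (w - 1)‖ ^ 2 + 6 * τ := by
    rw [hzn, hwn]
    have h3 : 4 * (1 + 2 * s * x + s ^ 2 * N) - (1 + s) ^ 2 * (1 + 2 * x + N)
        = (1 - s) * (2 * (1 - s) * (1 - x) - (N - 1) * (1 + 3 * s)) := by ring
    have h4 : -(6 * τ) ≤ (1 - s) * (2 * (1 - s) * (1 - x) - (N - 1) * (1 + 3 * s)) := by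
      have h5 : -τ ≤ 1 - x := by linarith
      have h6 : -(2 * τ) ≤ 2 * (1 - s) * (1 - x) := by nlinarith
      have h7 : (N - 1) * (1 + 3 * s) ≤ 4 * τ := by nlinarith
      nlinarith
    linarith
  set Z : ℝ := ‖1 + (s : ℂ) * (w - 1)‖ with hZ
  have hZ0 : 0 < Z := lt_of_lt_of_le hκ hz
  have hτκ : 0 ≤ τ / κ ^ 2 := by positivity
  have h8 : τ ≤ (τ / κ ^ 2) * Z ^ 2 := by
    have : κ ^ 2 ≤ Z ^ 2 := by nlinarith
    calc τ = (τ / κ ^ 2) * κ ^ 2 := by field_simp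
      _ ≤ _ := mul_le_mul_of_nonneg_left this hτκ
  have h9 : ((1 + s) * ‖w‖) ^ 2 ≤ (2 * Z * (1 + 2 * τ / κ ^ 2)) ^ 2 := by
    have e1 : 2 * τ / κ ^ 2 = 2 * (τ / κ ^ 2) := by ring
    rw [e1]
    set t : ℝ := τ / κ ^ 2 with ht
    have hZ2 : 0 ≤ Z ^ 2 := by positivity
    calc ((1 + s) * ‖w‖) ^ 2 = (1 + s) ^ 2 * ‖w‖ ^ 2 := by ring
      _ ≤ 4 * Z ^ 2 + 6 * τ := key
      _ ≤ 4 * Z ^ 2 + 6 * (t * Z ^ 2) := by linarith
      _ ≤ (2 * Z * (1 + 2 * t)) ^ 2 := by nlinarith [mul_nonneg hτκ hZ2, mul_nonneg (mul_nonneg hτκ hτκ) hZ2]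
  exact le_of_sq_le_sq h9 (by positivity)

/-- upper bound of `|J_0|` in the main regime -/
lemma JJ0_main (k : ℕ) (hk : 2 ≤ k) {w : ℂ} (hw : w ∈ Complex.slitPlane) {τ κ : ℝ}
    (hκ : 0 < κ) (h1 : 1 ≤ ‖w - 1‖) (hτ : ‖w - 1‖ ^ 2 ≤ 1 + τ)
    (hz : ∀ s ∈ Icc (0:ℝ) 1, κ ≤ ‖1 + (s : ℂ) * (w - 1)‖) :
    ‖JJ k 0 w‖ ≤ ‖w‖ ^ (-al k) * (1 + 2 * τ / κ ^ 2) * Lk k := by
  have hal := al_lt k hk
  have hal2 := half_le_al k hk
  have hτ0 : 0 ≤ τ := by nlinarith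
  set B : ℝ := 1 + 2 * τ / κ ^ 2 with hB
  have hB1 : 1 ≤ B := by
    have : 0 ≤ 2 * τ / κ ^ 2 := by positivity
    linarith
  have hwp : 0 < ‖w‖ := norm_pos_iff.2 (Complex.slitPlane_ne_zero hw)
  have hb : ∀ s ∈ Icc (0:ℝ) 1, ‖(s : ℂ) ^ 0 * (1 + (s : ℂ) * (w - 1)) ^ ex k‖ ≤
      ‖w‖ ^ (-al k) * B * ((1 + s) / 2) ^ (-al k) := by
    intro s hs
    rw [pow_zero, one_mul, norm_g]
    have hg := geom hκ h1 hτ hs (hz s hs)
    rw [← hB] at hg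
    have hs0 := hs.1
    have hZ0 : 0 < ‖1 + (s : ℂ) * (w - 1)‖ := lt_of_lt_of_le hκ (hz s hs)
    have h3 : ‖w‖ * ((1 + s) / 2) / B ≤ ‖1 + (s : ℂ) * (w - 1)‖ := by
      rw [div_le_iff₀ (by linarith)]
      nlinarith
    have h4 : 0 < ‖w‖ * ((1 + s) / 2) / B := by positivity
    calc ‖1 + (s : ℂ) * (w - 1)‖ ^ (-al k) ≤ (‖w‖ * ((1 + s) / 2) / B) ^ (-al k) :=
          Real.rpow_le_rpow_of_nonpos h4 h3 (by linarith)
      _ = ‖w‖ ^ (-al k) * ((1 + s) / 2) ^ (-al k) * B ^ (al k) := by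
          rw [Real.div_rpow (by positivity) (by linarith), Real.mul_rpow hwp.le (by positivity),
            Real.rpow_neg (by linarith : (0:ℝ) ≤ B), div_inv_eq_mul]
      _ ≤ ‖w‖ ^ (-al k) * ((1 + s) / 2) ^ (-al k) * B := by
          apply mul_le_mul_of_nonneg_left _ (by positivity)
          calc B ^ al k ≤ B ^ (1:ℝ) := Real.rpow_le_rpow_of_exponent_le hB1 hal.le
            _ = B := Real.rpow_one B
      _ = _ := by ring
  have h6 := intervalIntegral.norm_integral_le_of_norm_le (μ := volume) (a := (0:ℝ)) (b := 1)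
    (f := fun s : ℝ => (s : ℂ) ^ 0 * (1 + (s : ℂ) * (w - 1)) ^ ex k)
    (g := fun s => ‖w‖ ^ (-al k) * B * ((1 + s) / 2) ^ (-al k)) (by norm_num)
    (Filter.Eventually.of_forall (fun s hs => hb s (Ioc_subset_Icc_self hs)))
    (by
      apply ContinuousOn.intervalIntegrable
      rw [uIcc_of_le (by norm_num : (0:ℝ) ≤ 1)]
      apply ContinuousOn.mul continuousOn_const
      apply ContinuousOn.rpow_const
      · fun_prop
      · intro s hs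
        left
        have := hs.1
        positivity)
  refine le_trans h6 (le_of_eq ?_)
  rw [intervalIntegral.integral_const_mul, int_L k hk]

end Pool.Agent.KS6_23.FP
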