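import Pool.Agent.KS6_23.FP.Est3

/-!
The bound of the fixed point multipliers.
-/

set_option autoImplicit false

open Polynomial Set MeasureTheory intervalIntegral Filter

namespace Pool.Agent.KS6_23.FP

/-- eventual inequalities in `m` -/
lemma ev_growth {η A : ℝ} (hη : 0 < η) : ∀ᶠ m : ℕ in atTop, A * ((m:ℝ) + 1) < (1 + η) ^ (m - 1) := by
  have h1 : Tendsto (fun n : ℕ => ((n:ℝ) ^ 1) / (1 + η) ^ n) atTop (nhds 0) :=
    tendsto_pow_const_div_const_pow_of_one_lt 1 (by linarith)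
  have h2 : Tendsto (fun n : ℕ => (2 * |A| + 1) * (((n:ℝ) ^ 1) / (1 + η) ^ n) +
      (2 * |A| + 1) * (1 / (1 + η)) ^ n) atTop (nhds ((2 * |A| + 1) * 0 + (2 * |A| + 1) * 0)) := by
    apply Tendsto.add
    · exact h1.const_mul _
    · apply Tendsto.const_mul
      apply tendsto_pow_atTop_nhds_zero_of_lt_one (by positivity)
      rw [div_lt_one (by linarith)]; linarith
  rw [mul_zero, add_zero] at h2
  have h3 := h2.eventually (gt_mem_nhds (show (0:ℝ) < 1 / 2 by norm_num))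
  have h4 : ∀ᶠ n : ℕ in atTop, A * (((n + 1 : ℕ) : ℝ) + 1) < (1 + η) ^ (n + 1 - 1) := by
    filter_upwards [h3, eventually_ge_atTop 1] with n hn hn1
    have hp : 0 < (1 + η) ^ n := by positivity
    have hn2 : ((2 * |A| + 1) * n + (2 * |A| + 1)) < 1 / 2 * (1 + η) ^ n := by
      have e : (2 * |A| + 1) * (((n:ℝ) ^ 1) / (1 + η) ^ n) + (2 * |A| + 1) * (1 / (1 + η)) ^ n
          = ((2 * |A| + 1) * n + (2 * |A| + 1)) / (1 + η) ^ n := by
        rw [div_pow, one_pow]; field_simp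
      rw [e, div_lt_iff₀ hp] at hn
      exact hn
    have hA : A ≤ |A| := le_abs_self A
    have hA0 : 0 ≤ |A| := abs_nonneg A
    have hn1' : (1:ℝ) ≤ n := by exact_mod_cast hn1
    rw [Nat.add_sub_cancel]
    push_cast
    nlinarith
  rw [eventually_atTop] at h4 ⊢
  obtain ⟨N, hN⟩ := h4
  refine ⟨N + 1, fun m hm => ?_⟩
  have := hN (m - 1) (by omega)
  rw [Nat.sub_add_cancel (by omega)] at this
  exact this

lemma ev_sqrt {ε : ℝ} (hε : 0 < ε) : ∀ᶠ m : ℕ in atTop, 3 * Real.sqrt m / 2 ≤ ε * ((m:ℝ) + 1) := by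
  have h : ∀ᶠ m : ℕ in atTop, (3 / (2 * ε)) ^ 2 ≤ (m : ℝ) :=
    tendsto_natCast_atTop_atTop.eventually_ge_atTop _
  filter_upwards [h] with m hm
  have h1 : 3 / (2 * ε) ≤ Real.sqrt m := Real.le_sqrt_of_sq_le hm
  have h2 : 3 ≤ 2 * ε * Real.sqrt m := by
    rw [div_le_iff₀ (by positivity)] at h1; linarith
  have h3 : Real.sqrt m * Real.sqrt m = m := Real.mul_self_sqrt (by positivity)
  have h4 : 0 ≤ Real.sqrt m := Real.sqrt_nonneg _
  nlinarith

lemma ev_pow {δ : ℝ} (hδ : 0 < δ) (hδ1 : δ ≤ 1) :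
    ∀ᶠ m : ℕ in atTop, (1 - δ) ^ (m + 1) ≤ 1 / 2 := by
  have h1 : Tendsto (fun n : ℕ => (1 - δ) ^ n) atTop (nhds 0) :=
    tendsto_pow_atTop_nhds_zero_of_lt_one (by linarith) (by linarith)
  have h2 := (tendsto_add_atTop_iff_nat 1).2 h1
  exact h2.eventually (ge_mem_nhds (show (0:ℝ) < 1 / 2 by norm_num))

lemma ev_inv {A e : ℝ} (he : 0 < e) : ∀ᶠ m : ℕ in atTop, A / ((m:ℝ) + 2) ≤ e := by
  have h : ∀ᶠ m : ℕ in atTop, A / e ≤ (m : ℝ) :=
    tendsto_natCast_atTop_atTop.eventually_ge_atTop _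
  filter_upwards [h] with m hm
  rw [div_le_iff₀ (by positivity)]
  rw [div_le_iff₀ he] at hm
  nlinarith

/-- the case of the slit plane -/
lemma slit_case (k : ℕ) (hk : 2 ≤ k) {ε : ℝ} (hε : 0 < ε) : ∀ᶠ m : ℕ in atTop, ∀ w : ℂ,
    w ∈ Complex.slitPlane → 1 < ‖1 - w‖ →
    (1 - w) ^ m * JJ k m w = (I1 k m : ℂ) * JJ k 0 w →
    ‖1 - w‖ ^ m / I1 k m ≤ (Lk k + ε) * (m + 1) := by
  have hsg := sg_pos k hk
  have hal := al_lt k hk
  have hal2 := half_le_al k hk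
  have hk0 : (0:ℝ) < k := by exact_mod_cast (by omega : 0 < k)
  have hL0 := Lk_nonneg k
  have hLk := Lk_le k
  set δ : ℝ := min (1 / 2) ((ε * sg k / (6 * k)) ^ 2 / 2) with hδ
  have hδ0 : 0 < δ := by
    rw [hδ]
    apply lt_min (by norm_num)
    positivity
  have hδ1 : δ ≤ 1 / 2 := min_le_left _ _
  have hδ2 : 2 * δ ≤ (ε * sg k / (6 * k)) ^ 2 := by
    have := min_le_right (1 / 2) ((ε * sg k / (6 * k)) ^ 2 / 2)
    linarith
  have hδs : Real.sqrt (2 * δ) ≤ ε * sg k / (6 * k) := by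
    calc Real.sqrt (2 * δ) ≤ Real.sqrt ((ε * sg k / (6 * k)) ^ 2) := Real.sqrt_le_sqrt hδ2
      _ = ε * sg k / (6 * k) := Real.sqrt_sq (by positivity)
  set κ : ℝ := δ ^ 2 / 4 with hκ
  have hκ0 : 0 < κ := by positivity
  have hκ1 : κ ≤ 1 := by rw [hκ]; nlinarith
  set τ : ℝ := min (δ ^ 2 / 2) (ε * κ ^ 2 / (16 * k)) with hτ
  have hτ0 : 0 < τ := by
    rw [hτ]
    apply lt_min <;> positivity
  have hτ1 : τ ≤ δ ^ 2 / 2 := min_le_left _ _
  have hτ2 : τ ≤ ε * κ ^ 2 / (16 * k) := min_le_right _ _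
  have hτ3 : τ ≤ 1 := by nlinarith
  set η : ℝ := τ / 3 with hη
  have hη0 : 0 < η := by positivity
  have hη1 : (1 + η) ^ 2 ≤ 1 + τ := by rw [hη]; nlinarith
  have hB : Lk k * (1 + 2 * τ / κ ^ 2) ≤ Lk k + ε / 4 := by
    have h1 : 2 * τ / κ ^ 2 ≤ ε / (8 * k) := by
      rw [div_le_iff₀ (by positivity)]
      calc 2 * τ ≤ 2 * (ε * κ ^ 2 / (16 * k)) := by linarith
        _ = ε / (8 * k) * κ ^ 2 := by field_simp; ring
    have h2 : 0 ≤ 2 * τ / κ ^ 2 := by positivity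
    have h3 : Lk k * (2 * τ / κ ^ 2) ≤ 2 * k * (ε / (8 * k)) :=
      mul_le_mul hLk h1 h2 (by positivity)
    have h4 : 2 * k * (ε / (8 * k)) = ε / 4 := by field_simp; ring
    linarith
  set e : ℝ := ε / (4 * (2 * k + ε)) with he
  have he0 : 0 < e := by positivity
  filter_upwards [ev_growth (A := 6 * k / sg k) hη0, ev_pow hδ0 (by linarith),
    ev_inv (A := 6 / κ ^ 2) he0, eventually_ge_atTop 1] with m hm1 hm2 hm3 hm4
  intro w hw hw1 heq
  have hI : 0 < I1 k m := I1_pos hk hm4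
  have hI1 := I1_le_one k m
  have hsym : ‖1 - w‖ = ‖w - 1‖ := norm_sub_rev _ _
  have hw1' : 1 ≤ ‖w - 1‖ := by rw [← hsym]; exact hw1.le
  have hm0 : (0:ℝ) < (m:ℝ) + 1 := by positivity
  -- the norm form of the equation
  have hn : ‖1 - w‖ ^ m * ‖JJ k m w‖ = I1 k m * ‖JJ k 0 w‖ := by
    have := congrArg norm heq
    rw [norm_mul, norm_mul, norm_pow, Complex.norm_of_nonneg hI.le] at this
    exact this
  have hJ0 := JJ0_upper k hk hw hw1'
  have hJm := JJ_lower1 k m hk hw hw1'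
  have hJpos : 0 < ‖JJ k m w‖ := lt_of_lt_of_le (by positivity) hJm
  have hR : ‖1 - w‖ ^ m / I1 k m = ‖JJ k 0 w‖ / ‖JJ k m w‖ := by
    rw [div_eq_div_iff hI.ne' hJpos.ne', hn]; ring
  rw [hR]
  -- localisation
  have hloc : ‖w - 1‖ < 1 + η := by
    by_contra hc
    push Not at hc
    have h1 : ‖w - 1‖ ^ m * (sg k / (2 * ‖w - 1‖ * (m + 1))) ≤ 1 * (3 * k) := by
      calc ‖w - 1‖ ^ m * (sg k / (2 * ‖w - 1‖ * (m + 1))) ≤ ‖w - 1‖ ^ m * ‖JJ k m w‖ :=
            mul_le_mul_of_nonneg_left hJm (by positivity)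
        _ = I1 k m * ‖JJ k 0 w‖ := by rw [← hsym]; exact hn
        _ ≤ 1 * (3 * k) := mul_le_mul hI1 hJ0 (norm_nonneg _) (by norm_num)
    have h2 : ‖w - 1‖ ^ (m - 1) ≤ 6 * k / sg k * (m + 1) := by
      have e1 : ‖w - 1‖ ^ m = ‖w - 1‖ ^ (m - 1) * ‖w - 1‖ := by
        rw [← pow_succ, Nat.sub_add_cancel hm4]
      rw [e1] at h1
      have hwp : 0 < ‖w - 1‖ := by linarith
      have e2 : ‖w - 1‖ ^ (m - 1) * ‖w - 1‖ * (sg k / (2 * ‖w - 1‖ * (m + 1)))
          = ‖w - 1‖ ^ (m - 1) * sg k / (2 * (m + 1)) := by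
        field_simp
      rw [e2, div_le_iff₀ (by positivity)] at h1
      rw [div_mul_eq_mul_div, le_div_iff₀ hsg]
      linarith
    have h3 : (1 + η) ^ (m - 1) ≤ ‖w - 1‖ ^ (m - 1) :=
      pow_le_pow_left₀ (by positivity) hc _
    linarith
  rcases le_total ‖w‖ δ with hwd | hwd
  · -- small w
    have h1 := JJ_lower2 k m hk hw hδ0 hδ1 hwd hm2
    have hsq : 0 < Real.sqrt (2 * δ) := Real.sqrt_pos.2 (by linarith)
    have h2 : 0 < sg k / (2 * Real.sqrt (2 * δ) * (m + 1)) := by positivity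
    calc ‖JJ k 0 w‖ / ‖JJ k m w‖ ≤ (3 * k) / (sg k / (2 * Real.sqrt (2 * δ) * (m + 1))) :=
          div_le_div₀ (by positivity) hJ0 h2 h1
      _ = 6 * k / sg k * Real.sqrt (2 * δ) * (m + 1) := by field_simp; ring
      _ ≤ 6 * k / sg k * (ε * sg k / (6 * k)) * (m + 1) := by
          apply mul_le_mul_of_nonneg_right _ hm0.le
          apply mul_le_mul_of_nonneg_left hδs (by positivity)
      _ = ε * (m + 1) := by field_simp
      _ ≤ (Lk k + ε) * (m + 1) := by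
          apply mul_le_mul_of_nonneg_right _ hm0.le
          linarith
  · -- main regime
    have hN : ‖w - 1‖ ^ 2 ≤ 1 + τ := by
      calc ‖w - 1‖ ^ 2 ≤ (1 + η) ^ 2 := pow_le_pow_left₀ (norm_nonneg _) hloc.le 2
        _ ≤ _ := hη1
    have hre : κ ≤ w.re := by
      have h1 : ‖w - 1‖ ^ 2 = ‖w‖ ^ 2 - 2 * w.re + 1 := by
        rw [Complex.sq_norm, Complex.sq_norm, Complex.normSq_apply, Complex.normSq_apply]
        simp
        ring
      have h2 : δ ^ 2 ≤ ‖w‖ ^ 2 := pow_le_pow_left₀ hδ0.le hwd 2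
      rw [hκ]
      linarith
    have hz : ∀ s ∈ Icc (0:ℝ) 1, κ ≤ ‖1 + (s : ℂ) * (w - 1)‖ := by
      intro s hs
      have h1 : (1 + (s : ℂ) * (w - 1)).re = (1 - s) + s * w.re := by
        simp
        ring
      have h2 : κ ≤ (1 + (s : ℂ) * (w - 1)).re := by
        rw [h1]
        have := hs.1
        have := hs.2
        nlinarith
      exact le_trans h2 (Complex.re_le_norm _)
    have hw2 : ‖w - 1‖ ≤ 2 := by
      have : η ≤ 1 := by rw [hη]; linarith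
      linarith
    have hw3 : ‖w‖ ≤ 3 := by
      have : ‖w‖ ≤ ‖w - 1‖ + ‖(1:ℂ)‖ := by
        have := norm_add_le (w - 1) 1
        simpa using this
      rw [norm_one] at this
      linarith
    have hA := JJ0_main k hk hw hκ0 hw1' hN hz
    have hC := JJ_main k m hk hw hκ0 hκ1 hz hw2
    set g : ℝ := ‖w‖ ^ (-al k) with hg
    have hwp : 0 < ‖w‖ := lt_of_lt_of_le hδ0 hwd
    have hg3 : 1 / 3 ≤ g := by
      calc (1:ℝ) / 3 = (3:ℝ) ^ (-1:ℝ) := by rw [Real.rpow_neg_one, one_div]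
        _ ≤ (3:ℝ) ^ (-al k) := Real.rpow_le_rpow_of_exponent_le (by norm_num) (by linarith)
        _ ≤ ‖w‖ ^ (-al k) := Real.rpow_le_rpow_of_nonpos hwp hw3 (by linarith)
    have hD : g - 2 / κ ^ 2 / (m + 2) ≤ (m + 1) * ‖JJ k m w‖ := by
      have h1 : ‖w ^ ex k‖ = g := norm_g k w
      have h2 : ‖w ^ ex k‖ - ‖((m : ℂ) + 1) * JJ k m w‖ ≤
          ‖((m : ℂ) + 1) * JJ k m w - w ^ ex k‖ := by
        rw [norm_sub_rev]
        exact norm_sub_norm_le _ _
      have h3 : ‖((m : ℂ) + 1) * JJ k m w‖ = (m + 1) * ‖JJ k m w‖ := by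
        rw [norm_mul]
        congr 1
        have : ((m : ℂ) + 1) = ((m + 1 : ℕ) : ℂ) := by push_cast; ring
        rw [this, Complex.norm_natCast]
        push_cast; ring
      rw [h1, h3] at h2
      linarith
    have hE : 2 / κ ^ 2 / ((m:ℝ) + 2) ≤ e * g := by
      have h1 : 2 / κ ^ 2 / ((m:ℝ) + 2) = (1 / 3) * (6 / κ ^ 2 / (m + 2)) := by ring
      rw [h1]
      calc (1 / 3) * (6 / κ ^ 2 / ((m:ℝ) + 2)) ≤ (1 / 3) * e :=
            mul_le_mul_of_nonneg_left hm3 (by norm_num)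
        _ ≤ g * e := mul_le_mul_of_nonneg_right hg3 he0.le
        _ = e * g := by ring
    have hgp : 0 < g := by linarith
    have he1 : e < 1 := by
      rw [he, div_lt_one (by positivity)]
      nlinarith
    have hF : g * (1 - e) ≤ (m + 1) * ‖JJ k m w‖ := by linarith
    have hG : ‖JJ k 0 w‖ ≤ g * (Lk k + ε / 4) := by
      calc ‖JJ k 0 w‖ ≤ g * (1 + 2 * τ / κ ^ 2) * Lk k := hA
        _ = g * (Lk k * (1 + 2 * τ / κ ^ 2)) := by ring
        _ ≤ _ := mul_le_mul_of_nonneg_left hB hgp.le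
    have hH : Lk k + ε / 4 ≤ (1 - e) * (Lk k + ε) := by
      have h1 : e * (Lk k + ε) ≤ ε / 4 := by
        calc e * (Lk k + ε) ≤ e * (2 * k + ε) := mul_le_mul_of_nonneg_left (by linarith) he0.le
          _ = ε / 4 := by rw [he]; field_simp
      nlinarith
    rw [div_le_iff₀ hJpos]
    calc ‖JJ k 0 w‖ ≤ g * (Lk k + ε / 4) := hG
      _ ≤ g * ((1 - e) * (Lk k + ε)) := mul_le_mul_of_nonneg_left hH hgp.le
      _ = (Lk k + ε) * (g * (1 - e)) := by ring
      _ ≤ (Lk k + ε) * ((m + 1) * ‖JJ k m w‖) := mul_le_mul_of_nonneg_left hF (by linarith)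
      _ = _ := by ring

/-- the bound for all fixed points -/
lemma main_bound (k : ℕ) (hk : 2 ≤ k) {ε : ℝ} (hε : 0 < ε) : ∀ᶠ m : ℕ in atTop, ∀ ξ : ℂ,
    (qq k m).eval ξ = ξ * (I1 k m : ℂ) →
    ‖1 - ξ ^ k‖ ^ m / I1 k m ≤ (Lk k + ε) * (m + 1) := by
  have hL0 := Lk_nonneg k
  filter_upwards [slit_case k hk hε, ev_sqrt hε, eventually_ge_atTop 1] with m hm1 hm2 hm3
  intro ξ hξ
  have hI : 0 < I1 k m := I1_pos hk hm3
  have hm0 : (0:ℝ) < (m:ℝ) + 1 := by positivity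
  rcases le_or_gt ‖1 - ξ ^ k‖ 1 with h | h
  · have h1 : ‖1 - ξ ^ k‖ ^ m ≤ 1 := pow_le_one₀ (norm_nonneg _) h
    have h2 := I1_lower hk hm3
    have hs : 0 < Real.sqrt m := Real.sqrt_pos.2 (by exact_mod_cast hm3)
    calc ‖1 - ξ ^ k‖ ^ m / I1 k m ≤ 1 / (2 / (3 * Real.sqrt m)) :=
          div_le_div₀ (by norm_num) h1 (by positivity) h2
      _ = 3 * Real.sqrt m / 2 := by field_simp
      _ ≤ ε * (m + 1) := hm2
      _ ≤ (Lk k + ε) * (m + 1) := by
          apply mul_le_mul_of_nonneg_right _ hm0.le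
          linarith
  · have hξ0 : ξ ≠ 0 := by
      intro h0
      rw [h0, zero_pow (by omega)] at h
      simp at h
    set w : ℂ := ξ ^ k with hw
    have hw0 : w ≠ 0 := pow_ne_zero _ hξ0
    by_cases hsl : w ∈ Complex.slitPlane
    · apply hm1 w hsl h
      have hw1 : w ≠ 1 := by
        intro h1
        rw [h1] at h
        simp at h
        linarith
      apply fix_eq (by omega) hsl hw1
      set u : ℂ := w ^ ((k : ℂ)⁻¹) / ξ with hu
      have huk : u ^ k = 1 := by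
        rw [hu, div_pow, Complex.cpow_nat_inv_pow _ (by omega), ← hw, div_self hw0]
      have hζ : w ^ ((k : ℂ)⁻¹) = u * ξ := by
        rw [hu]; field_simp
      rw [hζ, qq_smul k m u huk, hξ]
      ring
    · exfalso
      rw [Complex.mem_slitPlane_iff] at hsl
      push Not at hsl
      obtain ⟨h1, h2⟩ := hsl
      have h3 : w = -(((-w.re : ℝ)) : ℂ) := by
        apply Complex.ext
        · simp
        · simp [h2]
      have h4 : 0 < -w.re := by
        rcases lt_or_eq_of_le h1 with h5 | h5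
        · linarith
        · exfalso
          apply hw0
          apply Complex.ext
          · simpa using h5
          · simpa using h2
      exact no_fix_neg hm3 hξ0 h4 (hw ▸ h3) hξ

end Pool.Agent.KS6_23.FP
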