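import Pool.Agent.KS6_23.FP.Poly

/-!
Integral formulas for the primitive `qq`.
-/

set_option autoImplicit false

open Polynomial Set MeasureTheory intervalIntegral

namespace Pool.Agent.KS6_23.FP

/-- `∫_0^1 (1 - t^k)^m dt` -/
noncomputable def I1 (k m : ℕ) : ℝ := ∫ t in (0:ℝ)..1, (1 - t ^ k) ^ m

lemma qq_eval (k m : ℕ) (z : ℂ) :
    (qq k m).eval z = ∫ t in (0:ℝ)..1, z * (1 - ((t : ℂ) * z) ^ k) ^ m := by
  have hd : ∀ t ∈ uIcc (0:ℝ) 1, HasDerivAt (fun t : ℝ => (qq k m).eval ((t : ℂ) * z))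
      (z * (1 - ((t : ℂ) * z) ^ k) ^ m) t := by
    intro t _
    have h1 : HasDerivAt (fun u : ℂ => (qq k m).eval (u * z))
        ((qq k m).derivative.eval ((t : ℂ) * z) * (1 * z)) (t : ℂ) := by
      have ha : HasDerivAt (fun u : ℂ => u * z) (1 * z) (t : ℂ) :=
        (hasDerivAt_id (t : ℂ)).mul_const z
      have hb : HasDerivAt (fun u : ℂ => (qq k m).eval u)
          ((qq k m).derivative.eval ((t : ℂ) * z)) ((t : ℂ) * z) := (qq k m).hasDerivAt _
      exact hb.comp (t : ℂ) ha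
    have h2 := h1.comp_ofReal
    rw [qq_deriv_eval] at h2
    convert h2 using 1
    ring
  have hi : IntervalIntegrable (fun t : ℝ => z * (1 - ((t : ℂ) * z) ^ k) ^ m) volume 0 1 := by
    apply Continuous.intervalIntegrable
    fun_prop
  have := intervalIntegral.integral_eq_sub_of_hasDerivAt hd hi
  rw [this]
  simp [qq_zero]

lemma qq_one (k m : ℕ) : (qq k m).eval 1 = (I1 k m : ℂ) := by
  rw [qq_eval, I1, ← intervalIntegral.integral_ofReal]
  apply intervalIntegral.integral_congr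
  intro t _
  simp

lemma I1_le_one (k m : ℕ) : I1 k m ≤ 1 := by
  have h : I1 k m ≤ ∫ t in (0:ℝ)..1, (1:ℝ) := by
    apply intervalIntegral.integral_mono_on (by norm_num)
    · apply Continuous.intervalIntegrable
      fun_prop
    · exact intervalIntegrable_const
    · intro t ht
      apply pow_le_one₀
      · have : t ^ k ≤ 1 := pow_le_one₀ ht.1 ht.2
        linarith
      · have : 0 ≤ t ^ k := pow_nonneg ht.1 k
        linarith
  simpa using h

/-- lower bound of the normalising integral -/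
lemma I1_lower {k m : ℕ} (hk : 2 ≤ k) (hm : 1 ≤ m) : 2 / (3 * Real.sqrt m) ≤ I1 k m := by
  have hm' : (1:ℝ) ≤ m := by exact_mod_cast hm
  have hs : 1 ≤ Real.sqrt m := by
    rw [show (1:ℝ) = Real.sqrt 1 by simp]
    exact Real.sqrt_le_sqrt hm'
  set b : ℝ := 1 / Real.sqrt m with hb
  have hb0 : 0 < b := by positivity
  have hb1 : b ≤ 1 := by
    rw [hb, div_le_one (by positivity)]; exact hs
  have hmb : (m:ℝ) * b ^ 2 = 1 := by
    rw [hb, div_pow, Real.sq_sqrt (by positivity)]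
    field_simp
  have hint : ∀ x y : ℝ, IntervalIntegrable (fun t : ℝ => (1 - t ^ k) ^ m) volume x y := by
    intro x y
    apply Continuous.intervalIntegrable
    fun_prop
  have hsplit : I1 k m = (∫ t in (0:ℝ)..b, (1 - t ^ k) ^ m) + ∫ t in b..1, (1 - t ^ k) ^ m := by
    rw [I1, intervalIntegral.integral_add_adjacent_intervals (hint _ _) (hint _ _)]
  have h2 : 0 ≤ ∫ t in b..1, (1 - t ^ k) ^ m := by
    apply intervalIntegral.integral_nonneg hb1
    intro t ht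
    apply pow_nonneg
    have : t ^ k ≤ 1 := pow_le_one₀ (by linarith [ht.1]) ht.2
    linarith
  have h1 : (∫ t in (0:ℝ)..b, (1 - (m:ℝ) * t ^ 2)) ≤ ∫ t in (0:ℝ)..b, (1 - t ^ k) ^ m := by
    apply intervalIntegral.integral_mono_on hb0.le
    · apply Continuous.intervalIntegrable
      fun_prop
    · exact hint _ _
    · intro t ht
      have ht1 : t ≤ 1 := le_trans ht.2 hb1
      have hk2 : t ^ k ≤ t ^ 2 := pow_le_pow_of_le_one ht.1 ht1 hk
      have hk0 : 0 ≤ t ^ k := pow_nonneg ht.1 k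
      have hk1 : t ^ k ≤ 1 := pow_le_one₀ ht.1 ht1
      have hB := one_add_mul_le_pow (a := -(t ^ k)) (by linarith) m
      have : 1 - (m:ℝ) * t ^ 2 ≤ 1 + (m:ℝ) * -(t ^ k) := by nlinarith
      calc 1 - (m:ℝ) * t ^ 2 ≤ 1 + (m:ℝ) * -(t ^ k) := this
        _ ≤ (1 + -(t ^ k)) ^ m := hB
        _ = (1 - t ^ k) ^ m := by ring
  have h3 : (∫ t in (0:ℝ)..b, (1 - (m:ℝ) * t ^ 2)) = b - m * (b ^ 3 / 3) := by
    rw [intervalIntegral.integral_sub intervalIntegrable_const (by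
      apply Continuous.intervalIntegrable; fun_prop)]
    rw [intervalIntegral.integral_const_mul, integral_pow]
    norm_num
  have h4 : b - m * (b ^ 3 / 3) = 2 / (3 * Real.sqrt m) := by
    have : (m:ℝ) * (b ^ 3 / 3) = b / 3 := by
      have : (m:ℝ) * (b ^ 3 / 3) = (m * b ^ 2) * b / 3 := by ring
      rw [this, hmb]; ring
    rw [this, hb]
    field_simp
    ring
  linarith

lemma I1_pos {k m : ℕ} (hk : 2 ≤ k) (hm : 1 ≤ m) : 0 < I1 k m := by
  have := I1_lower hk hm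
  have hm' : (0:ℝ) < m := by exact_mod_cast hm
  have h2 : 0 < 2 / (3 * Real.sqrt m) := by positivity
  linarith

/-- no fixed points on the rays where `z^k` is negative -/
lemma no_fix_neg {k m : ℕ} (hm : 1 ≤ m) {ξ : ℂ} (hξ : ξ ≠ 0) {r : ℝ} (hr : 0 < r)
    (h : ξ ^ k = -(r : ℂ)) : (qq k m).eval ξ ≠ ξ * (I1 k m : ℂ) := by
  intro he
  have h1 : (qq k m).eval ξ = ξ * ((∫ t in (0:ℝ)..1, (1 + t ^ k * r) ^ m : ℝ) : ℂ) := by
    rw [qq_eval, ← intervalIntegral.integral_ofReal, ← intervalIntegral.integral_const_mul]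
    apply intervalIntegral.integral_congr
    intro t _
    simp only
    rw [mul_pow, h]
    push_cast
    ring
  rw [h1] at he
  have h2 := mul_left_cancel₀ hξ he
  have h3 : (∫ t in (0:ℝ)..1, (1 + t ^ k * r) ^ m : ℝ) = I1 k m := by exact_mod_cast h2
  have h4 : (∫ t in (0:ℝ)..1, (1 + (m:ℝ) * (t ^ k * r))) ≤
      ∫ t in (0:ℝ)..1, (1 + t ^ k * r) ^ m := by
    apply intervalIntegral.integral_mono_on (by norm_num)
    · apply Continuous.intervalIntegrable
      fun_prop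
    · apply Continuous.intervalIntegrable
      fun_prop
    · intro t ht
      apply one_add_mul_le_pow
      have : 0 ≤ t ^ k * r := mul_nonneg (pow_nonneg ht.1 k) hr.le
      linarith
  have h5 : (∫ t in (0:ℝ)..1, (1 + (m:ℝ) * (t ^ k * r))) = 1 + m * (r / (k + 1)) := by
    rw [intervalIntegral.integral_add intervalIntegrable_const (by
      apply Continuous.intervalIntegrable; fun_prop)]
    rw [intervalIntegral.integral_const_mul, intervalIntegral.integral_mul_const, integral_pow]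
    simp
    left
    field_simp
  have h6 : (0:ℝ) < m * (r / (k + 1)) := by
    have : (0:ℝ) < m := by exact_mod_cast hm
    positivity
  have h7 := I1_le_one k m
  linarith

lemma slit_seg {w : ℂ} (hw : w ∈ Complex.slitPlane) {s : ℝ} (hs : s ∈ Icc (0:ℝ) 1) :
    1 + (s : ℂ) * (w - 1) ∈ Complex.slitPlane := by
  have h := Complex.starConvex_one_slitPlane.add_smul_sub_mem hw hs.1 hs.2
  simpa [Complex.real_smul] using h

/-- the exponent `1/k - 1` -/
noncomputable def ex (k : ℕ) : ℂ := (k : ℂ)⁻¹ - 1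

/-- `J(w) = ∫_0^1 s^m (1 + s (w-1))^(1/k-1) ds` -/
noncomputable def JJ (k m : ℕ) (w : ℂ) : ℂ :=
  ∫ s in (0:ℝ)..1, (s : ℂ) ^ m * (1 + (s : ℂ) * (w - 1)) ^ ex k

lemma hasDeriv_root (k : ℕ) {w : ℂ} (hw : w ∈ Complex.slitPlane) {s : ℝ}
    (hs : s ∈ Icc (0:ℝ) 1) :
    HasDerivAt (fun u : ℂ => (1 + u * (w - 1)) ^ ((k : ℂ)⁻¹))
      ((k : ℂ)⁻¹ * (1 + (s : ℂ) * (w - 1)) ^ ex k * (w - 1)) (s : ℂ) := by
  have ha : HasDerivAt (fun u : ℂ => 1 + u * (w - 1)) (1 * (w - 1)) (s : ℂ) :=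
    ((hasDerivAt_id (s : ℂ)).mul_const (w - 1)).const_add 1
  have := ha.cpow_const (c := (k : ℂ)⁻¹) (slit_seg hw hs)
  rw [one_mul] at this
  exact this

lemma cont_g (k : ℕ) {w : ℂ} (hw : w ∈ Complex.slitPlane) :
    ContinuousOn (fun s : ℝ => (1 + (s : ℂ) * (w - 1)) ^ ex k) (Icc (0:ℝ) 1) := by
  apply ContinuousOn.cpow_const
  · fun_prop
  · intro s hs
    exact slit_seg hw hs

lemma intble_g (k m : ℕ) {w : ℂ} (hw : w ∈ Complex.slitPlane) :
    IntervalIntegrable (fun s : ℝ => (s : ℂ) ^ m * (1 + (s : ℂ) * (w - 1)) ^ ex k)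
      volume 0 1 := by
  apply ContinuousOn.intervalIntegrable
  rw [uIcc_of_le (by norm_num : (0:ℝ) ≤ 1)]
  exact ContinuousOn.mul (by fun_prop) (cont_g k hw)

lemma root_sub (k : ℕ) {w : ℂ} (hw : w ∈ Complex.slitPlane) :
    w ^ ((k : ℂ)⁻¹) - 1 = (w - 1) / k * JJ k 0 w := by
  have hd : ∀ s ∈ uIcc (0:ℝ) 1, HasDerivAt (fun s : ℝ => (1 + (s : ℂ) * (w - 1)) ^ ((k : ℂ)⁻¹))
      ((k : ℂ)⁻¹ * (1 + (s : ℂ) * (w - 1)) ^ ex k * (w - 1)) s := by
    intro s hs
    rw [uIcc_of_le (by norm_num : (0:ℝ) ≤ 1)] at hs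
    exact (hasDeriv_root k hw hs).comp_ofReal
  have hi : IntervalIntegrable (fun s : ℝ => (k : ℂ)⁻¹ * (1 + (s : ℂ) * (w - 1)) ^ ex k * (w - 1))
      volume 0 1 := by
    apply ContinuousOn.intervalIntegrable
    rw [uIcc_of_le (by norm_num : (0:ℝ) ≤ 1)]
    exact ContinuousOn.mul (ContinuousOn.mul continuousOn_const (cont_g k hw)) continuousOn_const
  have h := intervalIntegral.integral_eq_sub_of_hasDerivAt hd hi
  simp only [Complex.ofReal_one, one_mul, Complex.ofReal_zero, zero_mul, add_zero,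
    Complex.one_cpow] at h
  rw [add_sub_cancel] at h
  rw [← h, JJ, intervalIntegral.integral_mul_const, intervalIntegral.integral_const_mul]
  simp only [pow_zero, one_mul]
  ring

lemma qq_sub {k : ℕ} (hk : 1 ≤ k) (m : ℕ) {w : ℂ} (hw : w ∈ Complex.slitPlane) :
    (qq k m).eval (w ^ ((k : ℂ)⁻¹)) - (qq k m).eval 1
      = (1 - w) ^ m * ((w - 1) / k * JJ k m w) := by
  have hd : ∀ s ∈ uIcc (0:ℝ) 1, HasDerivAt
      (fun s : ℝ => (qq k m).eval ((1 + (s : ℂ) * (w - 1)) ^ ((k : ℂ)⁻¹)))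
      ((1 - w) ^ m * ((w - 1) / k) * ((s : ℂ) ^ m * (1 + (s : ℂ) * (w - 1)) ^ ex k)) s := by
    intro s hs
    rw [uIcc_of_le (by norm_num : (0:ℝ) ≤ 1)] at hs
    have ha := hasDeriv_root k hw hs
    have hb : HasDerivAt (fun u : ℂ => (qq k m).eval u)
        ((qq k m).derivative.eval ((1 + (s : ℂ) * (w - 1)) ^ ((k : ℂ)⁻¹)))
        ((1 + (s : ℂ) * (w - 1)) ^ ((k : ℂ)⁻¹)) := (qq k m).hasDerivAt _
    have hc := (hb.comp (s : ℂ) ha).comp_ofReal
    rw [qq_deriv_eval, Complex.cpow_nat_inv_pow _ (by omega)] at hc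
    refine HasDerivAt.congr_deriv hc ?_
    rw [show (1 - (1 + (s : ℂ) * (w - 1))) = (s : ℂ) * (1 - w) by ring, mul_pow]
    ring
  have hi : IntervalIntegrable
      (fun s : ℝ => (1 - w) ^ m * ((w - 1) / k) * ((s : ℂ) ^ m * (1 + (s : ℂ) * (w - 1)) ^ ex k))
      volume 0 1 := (intble_g k m hw).const_mul _
  have h := intervalIntegral.integral_eq_sub_of_hasDerivAt hd hi
  simp only [Complex.ofReal_one, one_mul, Complex.ofReal_zero, zero_mul, add_zero,
    Complex.one_cpow] at h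
  rw [add_sub_cancel] at h
  rw [← h, JJ, intervalIntegral.integral_const_mul]
  ring

/-- the fixed point equation for the root in the main sector -/
lemma fix_eq {k m : ℕ} (hk : 1 ≤ k) {w : ℂ} (hw : w ∈ Complex.slitPlane) (hw1 : w ≠ 1)
    (h : (qq k m).eval (w ^ ((k : ℂ)⁻¹)) = w ^ ((k : ℂ)⁻¹) * (I1 k m : ℂ)) :
    (1 - w) ^ m * JJ k m w = (I1 k m : ℂ) * JJ k 0 w := by
  have h1 := qq_sub hk m hw
  rw [h, qq_one] at h1
  have h2 := root_sub k hw
  have h3 : w ^ ((k : ℂ)⁻¹) * (I1 k m : ℂ) - (I1 k m : ℂ)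
      = (I1 k m : ℂ) * (w ^ ((k : ℂ)⁻¹) - 1) := by ring
  rw [h3, h2] at h1
  have hk0 : (k : ℂ) ≠ 0 := by
    exact_mod_cast (by omega : k ≠ 0)
  have hw2 : (w - 1) / (k : ℂ) ≠ 0 := div_ne_zero (sub_ne_zero.2 hw1) hk0
  apply mul_left_cancel₀ hw2
  linear_combination -h1

end Pool.Agent.KS6_23.FP
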