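import Mathlib

/-!
The polynomials with derivative `c (1 - z^k)^m` normalised by `p(0) = 0`, `p(1) = 1`.
-/

set_option autoImplicit false

open Polynomial Set

namespace Pool.Agent.KS6_23.FP

/-- the primitive of `(1 - X^k)^m` vanishing at `0` -/
noncomputable def qq (k m : ℕ) : ℂ[X] :=
  ∑ i ∈ Finset.range (m + 1),
    Polynomial.C ((-1) ^ i * (m.choose i : ℂ) / ((k * i + 1 : ℕ) : ℂ)) * X ^ (k * i + 1)

lemma qq_deriv (k m : ℕ) : (qq k m).derivative = (1 - X ^ k) ^ m := by
  rw [qq, Polynomial.derivative_sum]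
  have h : (1 - X ^ k : ℂ[X]) ^ m = ((-(X ^ k)) + 1) ^ m := by ring
  rw [h, add_pow]
  apply Finset.sum_congr rfl
  intro i _
  rw [Polynomial.derivative_C_mul_X_pow]
  have h0 : ((k * i + 1 : ℕ) : ℂ) ≠ 0 := by
    exact_mod_cast Nat.succ_ne_zero (k * i)
  rw [div_mul_cancel₀ _ h0]
  simp only [Nat.add_sub_cancel, map_mul, map_pow, map_neg, map_one, map_natCast, one_pow, mul_one]
  rw [neg_pow (X ^ k : ℂ[X]), ← pow_mul]
  ring

lemma qq_smul (k m : ℕ) (u : ℂ) (hu : u ^ k = 1) (z : ℂ) :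
    (qq k m).eval (u * z) = u * (qq k m).eval z := by
  rw [qq, Polynomial.eval_finsetSum, Polynomial.eval_finsetSum, Finset.mul_sum]
  apply Finset.sum_congr rfl
  intro i _
  simp only [Polynomial.eval_mul, Polynomial.eval_C, Polynomial.eval_pow, Polynomial.eval_X]
  rw [mul_pow, pow_succ u, pow_mul, hu, one_pow]
  ring

lemma qq_deriv_eval (k m : ℕ) (z : ℂ) : (qq k m).derivative.eval z = (1 - z ^ k) ^ m := by
  rw [qq_deriv]; simp

lemma qq_zero (k m : ℕ) : (qq k m).eval 0 = 0 := by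
  rw [qq, Polynomial.eval_finsetSum]
  apply Finset.sum_eq_zero
  intro i _
  simp

lemma natDegree_base (k : ℕ) : (1 - X ^ k : ℂ[X]).natDegree = k := by
  have h : (1 - X ^ k : ℂ[X]) = -(X ^ k - Polynomial.C 1) := by
    rw [map_one]; ring
  rw [h, natDegree_neg, natDegree_X_pow_sub_C]

lemma qq_natDegree {k : ℕ} (hk : 1 ≤ k) (m : ℕ) : (qq k m).natDegree = k * m + 1 := by
  have h1 : (qq k m).derivative.natDegree = k * m := by
    rw [qq_deriv, natDegree_pow, natDegree_base k]; ring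
  have h0 : (qq k m).natDegree ≠ 0 := by
    intro h
    have h2 := Polynomial.eq_C_of_natDegree_eq_zero h
    have h3 : (qq k m).derivative = 0 := by rw [h2]; simp
    rw [qq_deriv] at h3
    have h4 : (1 - X ^ k : ℂ[X]) = 0 := eq_zero_of_pow_eq_zero h3
    have h5 := natDegree_base k
    rw [h4] at h5
    simp at h5
    omega
  have h2 := Polynomial.natDegree_derivative (qq k m)
  omega

end Pool.Agent.KS6_23.FP
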